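import Pool.Agent.Helper18.RD.Stmts8
import Pool.Agent.Helper9.RD6.BIL

/-! Row BILR of project RD, eighth form (MP_b7477f_nt): bilinear sums of the Jacobi symbol modulo
an odd squarefree number. The kernel is a tensor product over the primes. -/

set_option autoImplicit false

namespace Pool.Agent.Helper96.RD6

open Finset

/-- the squared operator norm of the kernel `k` is at most `A` -/
def Op {α : Type} [Fintype α] (k : α → α → ℤ) (A : ℤ) : Prop :=
  ∀ g : α → ℤ, ∑ x, (∑ y, k x y * g y) ^ 2 ≤ A * ∑ y, g y ^ 2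

theorem op_prod {α β : Type} [Fintype α] [Fintype β] (k : α → α → ℤ) (l : β → β → ℤ) (A B : ℤ)
    (hB : 0 ≤ B) (hk : Op k A) (hl : Op l B) :
    Op (fun x y : α × β => k x.1 y.1 * l x.2 y.2) (A * B) := by
  intro g
  have h1 : ∀ x : α, ∑ z : β, (∑ y : α × β, k x y.1 * l z y.2 * g y) ^ 2 ≤
      B * ∑ b : β, (∑ a : α, k x a * g (a, b)) ^ 2 := by
    intro x
    refine le_trans (le_of_eq ?_) (hl (fun b => ∑ a, k x a * g (a, b)))
    refine sum_congr rfl fun z _ => ?_
    rw [Fintype.sum_prod_type, sum_comm]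
    simp only [mul_sum]
    congr 1
    refine sum_congr rfl fun b _ => ?_
    refine sum_congr rfl fun a _ => ?_
    ring
  have h2 : ∑ y : α × β, g y ^ 2 = ∑ b : β, ∑ a : α, g (a, b) ^ 2 := by
    rw [Fintype.sum_prod_type, sum_comm]
  rw [h2, Fintype.sum_prod_type]
  calc ∑ x : α, ∑ z : β, (∑ y : α × β, k x y.1 * l z y.2 * g y) ^ 2
      ≤ ∑ x : α, B * ∑ b : β, (∑ a : α, k x a * g (a, b)) ^ 2 := sum_le_sum fun x _ => h1 x
    _ = B * ∑ b : β, ∑ x : α, (∑ a : α, k x a * g (a, b)) ^ 2 := by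
        rw [← mul_sum, sum_comm]
    _ ≤ B * ∑ b : β, A * ∑ a : α, g (a, b) ^ 2 :=
        mul_le_mul_of_nonneg_left (sum_le_sum fun b _ => hk _) hB
    _ = A * B * ∑ b : β, ∑ a : α, g (a, b) ^ 2 := by
        rw [← mul_sum]
        ring

theorem op_equiv {α β : Type} [Fintype α] [Fintype β] (e : α ≃ β) (k : β → β → ℤ) (A : ℤ)
    (h : Op k A) : Op (fun x y : α => k (e x) (e y)) A := by
  intro g
  have h1 := h (fun b => g (e.symm b))
  have e1 : ∑ y : β, g (e.symm y) ^ 2 = ∑ y : α, g y ^ 2 :=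
    Fintype.sum_equiv e.symm _ _ fun x => rfl
  have e2 : ∑ x : β, (∑ y : β, k x y * g (e.symm y)) ^ 2 =
      ∑ x : α, (∑ y : α, k (e x) (e y) * g y) ^ 2 := by
    refine Fintype.sum_equiv e.symm _ _ fun x => ?_
    congr 1
    refine Fintype.sum_equiv e.symm _ _ fun y => ?_
    rw [Equiv.apply_symm_apply, Equiv.apply_symm_apply]
  rw [e1, e2] at h1
  exact h1

theorem op_prime (p : ℕ) [Fact p.Prime] (hp : p ≠ 2) :
    Op (fun x y : ZMod p => quadraticChar (ZMod p) (x + y)) p := by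
  intro g
  have e1 : ∑ x : ZMod p, (∑ y, quadraticChar (ZMod p) (x + y) * g y) ^ 2 =
      ∑ y : ZMod p, ∑ y' : ZMod p, g y * g y' * ((p : ℤ) * (if y = y' then 1 else 0) - 1) := by
    simp only [sq, sum_mul_sum]
    rw [sum_comm]
    refine sum_congr rfl fun y _ => ?_
    rw [sum_comm]
    refine sum_congr rfl fun y' _ => ?_
    rw [← Pool.Agent.Helper9.RD6.corr p hp, mul_sum]
    refine sum_congr rfl fun x _ => ?_
    ring
  have e2 : ∑ y : ZMod p, ∑ y' : ZMod p,
      g y * g y' * ((p : ℤ) * (if y = y' then 1 else 0) - 1) =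
      p * ∑ y, g y ^ 2 - (∑ y, g y) ^ 2 := by
    rw [sq (∑ y, g y), sum_mul_sum, mul_sum, ← sum_sub_distrib]
    refine sum_congr rfl fun y _ => ?_
    have e3 : ∀ y' : ZMod p, g y * g y' * ((p : ℤ) * (if y = y' then 1 else 0) - 1) =
        (if y = y' then (p : ℤ) * (g y * g y') else 0) - g y * g y' := by
      intro y'
      by_cases h : y = y'
      · rw [if_pos h, if_pos h]
        ring
      · rw [if_neg h, if_neg h]
        ring
    rw [sum_congr rfl fun y' _ => e3 y', sum_sub_distrib, sum_ite_eq, if_pos (mem_univ _), sq]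
  rw [e1, e2]
  linarith [sq_nonneg (∑ y, g y)]

theorem jac_cast (R : ℕ) (a : ℤ) : jacobiSym ((a : ZMod R).val : ℤ) R = jacobiSym a R := by
  by_cases h : R = 0
  · subst h
    rw [jacobiSym.zero_right, jacobiSym.zero_right]
  · have : NeZero R := ⟨h⟩
    rw [ZMod.val_intCast, ← jacobiSym.mod_left]

theorem op_one (R : ℕ) (hR : R = 1) [NeZero R] :
    Op (fun x y : ZMod R => jacobiSym ((x + y).val : ℤ) R) R := by
  subst hR
  intro g
  rw [Fintype.sum_subsingleton _ (0 : ZMod 1), Fintype.sum_subsingleton _ (0 : ZMod 1),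
    Fintype.sum_subsingleton _ (0 : ZMod 1)]
  simp only [jacobiSym.one_right, one_mul, Nat.cast_one]
  exact le_rfl

theorem op_pr (R : ℕ) (hR : R.Prime) (h2 : R ≠ 2) [NeZero R] :
    Op (fun x y : ZMod R => jacobiSym ((x + y).val : ℤ) R) R := by
  have : Fact R.Prime := ⟨hR⟩
  have h := op_prime R h2
  have e : (fun x y : ZMod R => jacobiSym ((x + y).val : ℤ) R) =
      fun x y : ZMod R => quadraticChar (ZMod R) (x + y) := by
    funext x y
    rw [← jacobiSym.legendreSym.to_jacobiSym, legendreSym, Int.cast_natCast,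
      ZMod.natCast_zmod_val]
  rw [e]
  intro g
  exact h g

theorem op_mul (a b : ℕ) (hab : Nat.Coprime a b) [NeZero a] [NeZero b] [NeZero (a * b)]
    (ha : Op (fun x y : ZMod a => jacobiSym ((x + y).val : ℤ) a) a)
    (hb : Op (fun x y : ZMod b => jacobiSym ((x + y).val : ℤ) b) b) :
    Op (fun x y : ZMod (a * b) => jacobiSym ((x + y).val : ℤ) (a * b)) ((a * b : ℕ) : ℤ) := by
  have h1 := op_prod _ _ _ _ (Nat.cast_nonneg b) ha hb
  have h2 := op_equiv (ZMod.chineseRemainder hab).toEquiv _ _ h1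
  have e : (fun x y : ZMod (a * b) => jacobiSym ((x + y).val : ℤ) (a * b)) =
      fun x y : ZMod (a * b) =>
        jacobiSym ((((ZMod.chineseRemainder hab).toEquiv x).1 +
          ((ZMod.chineseRemainder hab).toEquiv y).1).val : ℤ) a *
        jacobiSym ((((ZMod.chineseRemainder hab).toEquiv x).2 +
          ((ZMod.chineseRemainder hab).toEquiv y).2).val : ℤ) b := by
    funext x y
    obtain ⟨v, hv⟩ : ∃ v : ℤ, v = ((x + y).val : ℤ) := ⟨_, rfl⟩
    have h3 : x + y = (v : ZMod (a * b)) := by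
      rw [hv, Int.cast_natCast, ZMod.natCast_zmod_val]
    have h4 : (ZMod.chineseRemainder hab).toEquiv x + (ZMod.chineseRemainder hab).toEquiv y =
        ((v : ℤ) : ZMod a × ZMod b) := by
      have h5 : (ZMod.chineseRemainder hab) (x + y) = ((v : ℤ) : ZMod a × ZMod b) := by
        rw [h3, map_intCast]
      rw [← h5, map_add]
      rfl
    have h6 : ((ZMod.chineseRemainder hab).toEquiv x).1 +
        ((ZMod.chineseRemainder hab).toEquiv y).1 = (v : ZMod a) := by
      rw [← Prod.fst_add, h4, Prod.fst_intCast]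
    have h7 : ((ZMod.chineseRemainder hab).toEquiv x).2 +
        ((ZMod.chineseRemainder hab).toEquiv y).2 = (v : ZMod b) := by
      rw [← Prod.snd_add, h4, Prod.snd_intCast]
    rw [h6, h7, jac_cast, jac_cast, ← hv, jacobiSym.mul_right]
  rw [e]
  intro g
  have h8 := h2 g
  rw [Nat.cast_mul]
  exact h8

theorem op_jac (R : ℕ) : Squarefree R → Odd R → ∀ [NeZero R],
    Op (fun x y : ZMod R => jacobiSym ((x + y).val : ℤ) R) R := by
  induction R using Nat.recOnPrimeCoprime with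
  | zero =>
    intro h
    exact absurd h not_squarefree_zero
  | prime_pow p n hp =>
    intro hs ho _
    rcases Nat.eq_zero_or_pos n with hn | hn
    · refine op_one _ ?_
      rw [hn, pow_zero]
    · have hn1 : n = 1 := by
        by_contra hne
        have h2 : 2 ≤ n := by omega
        have h3 : p * p ∣ p ^ n := by
          rw [← sq]
          exact pow_dvd_pow p h2
        exact hp.one_lt.ne' (Nat.isUnit_iff.1 (hs p h3))
      refine op_pr _ ?_ ?_
      · rw [hn1, pow_one]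
        exact hp
      · intro h2
        rw [h2] at ho
        exact absurd ho (by decide)
  | coprime a b ha hb hab iha ihb =>
    intro hs ho _
    have : NeZero a := ⟨by omega⟩
    have : NeZero b := ⟨by omega⟩
    have hsa : Squarefree a := hs.squarefree_of_dvd (Dvd.intro _ rfl)
    have hsb : Squarefree b := hs.squarefree_of_dvd (Dvd.intro_left _ rfl)
    have ho' := Nat.odd_mul.1 ho
    exact op_mul a b hab (iha hsa ho'.1) (ihb hsb ho'.2)

theorem bilr (R : ℕ) (J : Finset ℕ) (m F G : ℕ → ℤ) (hs : Squarefree R) (ho : Odd R)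
    (hF : ∀ n, |F n| ≤ 1) (hG : ∀ n, |G n| ≤ 1) :
    (∑ i ∈ J, ∑ j ∈ J, jacobiSym (m i + m j) R * F i * G j) ^ 2 ≤
      (R : ℤ) * (((J ×ˢ J).filter (fun x => (R : ℤ) ∣ m x.1 - m x.2)).card : ℤ) ^ 2 := by
  have hR : NeZero R := ⟨hs.ne_zero⟩
  obtain ⟨r, hr⟩ : ∃ r : ℕ → ZMod R, r = fun i => (m i : ZMod R) := ⟨_, rfl⟩
  have hr1 : ∀ i, r i = (m i : ZMod R) := fun i => by rw [hr]
  obtain ⟨N, hN⟩ : ∃ N : ℤ, N =
    (((J ×ˢ J).filter (fun x => (R : ℤ) ∣ m x.1 - m x.2)).card : ℤ) := ⟨_, rfl⟩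
  have hNr : (((J ×ˢ J).filter (fun x => r x.1 = r x.2)).card : ℤ) = N := by
    rw [hN]
    congr 2
    refine filter_congr fun x _ => ?_
    rw [hr1, hr1, ← ZMod.intCast_zmod_eq_zero_iff_dvd, Int.cast_sub, sub_eq_zero]
  obtain ⟨V, hV⟩ : ∃ V : ZMod R → ℤ, V = fun x =>
    ∑ y : ZMod R, jacobiSym ((x + y).val : ℤ) R * ∑ j ∈ J, if r j = y then G j else 0 := ⟨_, rfl⟩
  have hT : ∑ i ∈ J, ∑ j ∈ J, jacobiSym (m i + m j) R * F i * G j = ∑ i ∈ J, F i * V (r i) := by
    refine sum_congr rfl fun i _ => ?_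
    rw [hV]
    simp only [mul_sum]
    rw [sum_comm]
    refine sum_congr rfl fun j _ => ?_
    simp only [mul_ite, mul_zero]
    rw [sum_ite_eq, if_pos (mem_univ _)]
    have h1 : r i + r j = ((m i + m j : ℤ) : ZMod R) := by
      rw [hr1, hr1, Int.cast_add]
    rw [h1, jac_cast]
    ring
  have hN0 : 0 ≤ N := by
    rw [hN]
    exact Nat.cast_nonneg _
  have hFF := Pool.Agent.Helper9.RD6.fib_le J r F hF
  have hGG := Pool.Agent.Helper9.RD6.fib_le J r G hG
  rw [hNr] at hFF hGG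
  have hVV : ∑ x, V x ^ 2 ≤ (R : ℤ) * N := by
    have h := op_jac R hs ho (fun y => ∑ j ∈ J, if r j = y then G j else 0)
    rw [hV]
    exact h.trans (mul_le_mul_of_nonneg_left hGG (Nat.cast_nonneg _))
  rw [hT, ← hN]
  refine (Pool.Agent.Helper9.RD6.cs J r F V).trans ?_
  calc (∑ x, (∑ i ∈ J, if r i = x then F i else 0) ^ 2) * ∑ x, V x ^ 2
      ≤ N * ((R : ℤ) * N) := mul_le_mul hFF hVV (sum_nonneg fun x _ => sq_nonneg _) hN0
    _ = (R : ℤ) * N ^ 2 := by ring

end Pool.Agent.Helper96.RD6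

namespace Pool.Agent.Helper18.RD

theorem st_BILR : ST_BILR := by
  intro R J m F G hs ho hF hG
  exact Pool.Agent.Helper96.RD6.bilr R J m F G hs ho hF hG

end Pool.Agent.Helper18.RD
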